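import Pool.Agent.U580.AD.Fin

/-!
MP_19ffc6_ag: resolution of singularities, in all dimensions, of the `A`-discriminant hypersurfaces
over perfect fields of characteristic `p`.

Let `A = {a 0, ..., a (N - 1)}` be a finite family of vectors of `ℤ ^ n` whose differences generate
`ℤ ^ n`. The discriminant variety of `A` is the Zariski closure in the affine space `𝔸 ^ N` of the set
of the coefficient vectors `c` for which the Laurent polynomial `f = ∑ j, c j * x ^ a j` has a
singular zero in the torus (the cone over the projective dual variety of the toric variety `X_A`,
which may have arbitrary toric singularities, and need not be normal). Special cases are the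
discriminants of polynomials with prescribed supports, the resultants of sparse systems (by the
Cayley trick), the hyperdeterminants, and the determinants of symmetric matrices with prescribed
zero entries (`p ≠ 2`). The theorem: if the singularity of the generic such `f` is nondegenerate,
that is, if the logarithmic Hessian `∑ j, y j * a j ⊗ a j` is invertible for some `y` with
`∑ y j = 0`, `∑ y j * a j = 0`, then the discriminant variety is an irreducible hypersurface, and it
has a resolution of singularities.

The proof. The generic point of the discriminant variety is `c j = y j * x ^ (-a j)`, `y` the generic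
linear relation between the vectors `(1, a j)` and `x` the generic point of the torus (the
Horn-Kapranov parametrization). (1) Reflexivity: let `F` be a polynomial of minimal degree with
`F (c) = 0`; not all partial derivatives of `F` vanish at `c`, because otherwise `F` would be a
`p`-th power. The chain rule and the nondegeneracy of the Hessian show that the gradient of `F` at
`c` is proportional to `(x ^ a j)`. So `x ^ (a i - a j)` and then `x i` and `y j` are rational
functions of `c`, that is, the function field of the discriminant variety is `k (y, x)`. (2) So the
coordinate ring of the discriminant variety is generated by products of linear forms in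
`k (y, x)`, and the theorem of the starting file `MP_b525bf_ag.ProductsOfLinearForms` (`plf_main`,
by the team of helper558) applies.
-/

set_option autoImplicit false

open AlgebraicGeometry CategoryTheory Pool.Agent.W558 MvPolynomial

universe u

namespace Pool.Agent.Results.MP_19ffc6_ag.Discriminants

/-- The Laurent polynomial `f = ∑ j, c j * x ^ a j` over the field `Ω` has a singular zero in the
torus: a zero `x` with `x i ≠ 0` for all `i`, at which all derivatives `x l * ∂ f / ∂ x l` vanish. -/
def HasSingularZero {n N : ℕ} (a : Fin N → Fin n → ℤ) {Ω : Type u} [Field Ω] (c : Fin N → Ω) :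
    Prop :=
  ∃ x : Fin n → Ω, (∀ i, x i ≠ 0) ∧ ∑ j, c j * ∏ i, x i ^ a j i = 0 ∧
    ∀ l, ∑ j, c j * (a j l : Ω) * ∏ i, x i ^ a j i = 0

/-- The ideal of the discriminant variety: the polynomials over `k` which vanish at all coefficient
vectors `c`, with coordinates in the algebraic closure of `k`, such that `∑ j, c j * x ^ a j` has a
singular zero in the torus. -/
def discriminantIdeal (k : Type u) [Field k] {n N : ℕ} (a : Fin N → Fin n → ℤ) :
    Ideal (MvPolynomial (Fin N) k) where
  carrier := {F | ∀ c : Fin N → AlgebraicClosure k, HasSingularZero a c → aeval c F = 0}
  add_mem' := fun hF hG c hc => by rw [map_add, hF c hc, hG c hc, add_zero]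
  zero_mem' := fun c _ => map_zero _
  smul_mem' := fun G F hF c hc => by rw [smul_eq_mul, map_mul, hF c hc, mul_zero]

/-- The logarithmic Hessian `∑ j, y j * a j ⊗ a j` of `∑ j, y j * x ^ a j` at `x = 1`. -/
def hessian {n N : ℕ} (a : Fin N → Fin n → ℤ) {Ω : Type u} [Field Ω] (y : Fin N → Ω) :
    Matrix (Fin n) (Fin n) Ω :=
  Matrix.of fun i l => ∑ j, y j * (a j i : Ω) * (a j l : Ω)

/-- Let `k` be a perfect field of characteristic `p` and let `a 0, ..., a (N - 1)` be vectors of
`ℤ ^ n`, `N ≥ 1`, whose differences generate the group `ℤ ^ n`. Suppose that there is a vector `y`
over the algebraic closure of `k` with `∑ j, y j = 0` and `∑ j, y j * a j = 0` for which the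
logarithmic Hessian is invertible (so for some, and then for almost all, of the Laurent polynomials
with the supports `a j` which are singular at a point of the torus, the singularity is nondegenerate).
Then the discriminant variety is an irreducible hypersurface in `𝔸 ^ N` (its ideal is prime and its
coordinate ring has the transcendence degree `N - 1`), and it has a resolution of singularities. -/
theorem result (p : ℕ) [Fact p.Prime] (k : Type u) [Field k] [PerfectField k] [CharP k p]
    {n N : ℕ} (hN : 0 < N) (a : Fin N → Fin n → ℤ)
    (hlat : AddSubgroup.closure {v | ∃ i j, v = a i - a j} = ⊤)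
    (hH : ∃ y : Fin N → AlgebraicClosure k, ∑ j, y j = 0 ∧
      (∀ i, ∑ j, y j * (a j i : AlgebraicClosure k) = 0) ∧ (hessian a y).det ≠ 0) :
    (discriminantIdeal k a).IsPrime ∧
    Algebra.trdeg k (MvPolynomial (Fin N) k ⧸ discriminantIdeal k a) + 1 = (N : Cardinal.{u}) ∧
    IsResolvableVariety (X := Spec (CommRingCat.of (MvPolynomial (Fin N) k ⧸ discriminantIdeal k a)))
      (Spec.map (CommRingCat.ofHom
        (algebraMap k (MvPolynomial (Fin N) k ⧸ discriminantIdeal k a)))) :=
  Pool.Agent.U580.AD.disc_res p k hN a hlat hH (discriminantIdeal k a) fun _ => Iff.rfl

end Pool.Agent.Results.MP_19ffc6_ag.Discriminants
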