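import Pool.Agent.U197.GQ.M15

/-!
MP_19ffc6_ag: resolution of singularities, in all dimensions and over every perfect field `k` of
characteristic `p > 0`, of the quotients `V / G` of affine spaces `V = k ^ n` by the finite
subgroups `G` of `GL_n (k)` for which the stabilizer of every nonzero vector has order `1` or `p`.

The group is arbitrary otherwise: it may be nonabelian and not solvable, and its Sylow subgroups
are only restricted by the condition. Examples are `m` copies of the plane `k ^ 2` with the diagonal
action of any finite subgroup of `SL_2 (k)` of order not divisible by `p ^ 2` (the stabilizers are
unipotent), for instance of `SL_2 (F_p)`, and tensor products of a representation of order `p` with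
a representation of a group of order prime to `p` which acts freely outside the origin.

The proof. Let `σ` be an element of order `p` and `N = σ - 1` on the space of linear forms. The
products of linear forms `N ^ w x` of total weight at least `d` form the filtration `F_σ` of a
weighted blowing up in the fixed space of `σ`. On the blowup of the origin (more precisely on the
complement of the origin in `V`, times an affine line with coordinate the equation of the
exceptional divisor, with an action of the multiplicative group) let `F` be the intersection of all
`F_σ`. By the condition on the stabilizers, near every point at most one subgroup of order `p`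
contributes to `F`. So `F` is the filtration of a regular weighted centre, it is stable under `G`,
and the operator `σ - 1` raises it by one with a leading form without zeros. The extended Rees
algebra of `F` then has regular, hence smooth, invariants under `G`: its inertia groups have order
`1` or `p` and their augmentation ideals are invertible. The quotient is therefore covered by
smooth varieties with actions of a torus of dimension two with finite tame stabilizers, which are
resolved by the toroidal part of the library (files of helpers 559, 613, 333, 417, 440).
-/

set_option autoImplicit false

open AlgebraicGeometry CategoryTheory MvPolynomial Pool.Agent.H920R2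

namespace Pool.Agent.Results.MP_19ffc6_ag.LinearStabilizersOfOrderP

section defs

variable {k : Type} [Field k] {n : ℕ}

/-- The substitution `x ↦ g x` in polynomials: `x_i ↦ ∑ j, g_(i, j) x_j`. -/
noncomputable def subst (g : Matrix (Fin n) (Fin n) k) :
    MvPolynomial (Fin n) k →ₐ[k] MvPolynomial (Fin n) k :=
  aeval fun i => ∑ j, C (g i j) * X j

/-- The algebra of the polynomials which are invariant under the group `G` of matrices. -/
noncomputable def invariants (G : Subgroup (Matrix.GeneralLinearGroup (Fin n) k)) :
    Subalgebra k (MvPolynomial (Fin n) k) where
  carrier := {f | ∀ g ∈ G, subst (g : Matrix (Fin n) (Fin n) k) f = f}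
  mul_mem' := fun {a b} ha hb g hg => by rw [map_mul, ha g hg, hb g hg]
  add_mem' := fun {a b} ha hb g hg => by rw [map_add, ha g hg, hb g hg]
  algebraMap_mem' := fun c g _ => AlgHom.commutes _ c

/-- The quotient of the affine space of dimension `n` by the group `G`. -/
noncomputable def quot (G : Subgroup (Matrix.GeneralLinearGroup (Fin n) k)) : Scheme.{0} :=
  Spec (CommRingCat.of (invariants G))

/-- The structure morphism of the quotient. -/
noncomputable def quotStr (G : Subgroup (Matrix.GeneralLinearGroup (Fin n) k)) :
    quot G ⟶ Spec (CommRingCat.of k) :=
  Spec.map (CommRingCat.ofHom (algebraMap k (invariants G)))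

/-- The elements of the group `G` which fix the vector `v`. -/
def Stabilizer (G : Subgroup (Matrix.GeneralLinearGroup (Fin n) k)) (v : Fin n → k) : Type :=
  {g : G // ((g : Matrix.GeneralLinearGroup (Fin n) k) : Matrix (Fin n) (Fin n) k).mulVec v = v}

end defs

/-- Let `p` be a prime, `k` a perfect field of characteristic `p`, and let `G` be a finite subgroup
of `GL_n (k)` such that the stabilizer of every nonzero vector `v` in `k ^ n` has order `1` or `p`.
Then the quotient of the affine space of dimension `n` by `G`, the spectrum of the ring of invariant
polynomials, is a variety and has a resolution of singularities. -/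
theorem result (p : ℕ) [Fact p.Prime] (k : Type) [Field k] [CharP k p] [PerfectField k] (n : ℕ)
    (G : Subgroup (Matrix.GeneralLinearGroup (Fin n) k)) [Finite G]
    (hG : ∀ v : Fin n → k, v ≠ 0 →
      Nat.card (Stabilizer G v) = 1 ∨ Nat.card (Stabilizer G v) = p) :
    IsVariety (quotStr G) ∧
    ∃ (Y : Scheme.{0}) (π : Y ⟶ quot G),
      AlgebraicGeometry.IsIntegral Y ∧ AlgebraicGeometry.IsProper π ∧
      AlgebraicGeometry.Smooth (π ≫ quotStr G) ∧
      ∃ U : (quot G).Opens, Dense (U : Set (quot G)) ∧ IsIso (π ∣_ U) :=
  Pool.Agent.U197.GQ.lin_main G hG (invariants G) fun _ => Iff.rfl

end Pool.Agent.Results.MP_19ffc6_ag.LinearStabilizersOfOrderP
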