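import Pool.Agent.U186.RankOneFin

/-!
MP_19ffc6_ag: resolution of the irreducible components of the hypersurfaces
`det (M + ∑ e, t e ^ m e • u e ⊗ v e) = 0` in affine spaces over perfect fields of characteristic
`p` and over affine surfaces, for `m e` prime to `p`. For `m e = 1` the class contains the graph
hypersurfaces (`u e = v e` the incidence vectors of the edges of a graph), the configuration
hypersurfaces of all realisations of matroids, the sparse generic determinantal hypersurfaces and
the hypersurfaces `det (M + diag (t)) = 0`.

The proof: on such a component there is a kernel vector `w` with `w i₀ = 1`; the elements `w i`,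
`y e = t e ^ m e * (v e ⬝ w)` satisfy the linear relations `M w + ∑ y e • u e = 0`, and `t e ^ m e`
is the quotient of the linear forms `y e` and `v e ⬝ w`; a count of dimensions shows that these
relations are complete, and the theorem on products of linear forms (`plf_main`, the starting file
`MP_b525bf_ag.ProductsOfLinearForms`) applies.
-/

set_option autoImplicit false

open AlgebraicGeometry CategoryTheory Pool.Agent.W558 MvPolynomial

universe u

namespace Pool.Agent.Results.MP_19ffc6_ag.RankOneDeterminants

/-- The `n × n` matrix `M + ∑ e, t e ^ m e • u e ⊗ v e` over the polynomial ring over `R` in the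
variables `t 0, ..., t (N - 1)`. -/
noncomputable def pencil {R : Type u} [CommRing R] {n N : ℕ} (M : Matrix (Fin n) (Fin n) R)
    (u v : Fin N → Fin n → R) (m : Fin N → ℕ) :
    Matrix (Fin n) (Fin n) (MvPolynomial (Fin N) R) :=
  Matrix.of fun i j => C (M i j) + ∑ e, C (u e i * v e j) * X e ^ m e

/-- Let `k` be a perfect field of characteristic `p`, and let `R` be a finitely generated
`k`-algebra, a domain with the field of fractions `E`. Suppose that `R = E = k`, or that `E` is the
function field of a smooth projective surface over `k` (`HasModel`), or that `E` has log smooth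
projective models (`HasLogModels`). Let `M` be an `n × n` matrix over `R`, let `u e`, `v e` be
vectors over `R` and `m e` integers prime to `p`, such that the polynomial
`det (M + ∑ e, t e ^ m e • u e ⊗ v e)` in `t 0, ..., t (N - 1)` is not zero. Then every irreducible
component of the hypersurface `det (M + ∑ e, t e ^ m e • u e ⊗ v e) = 0` in `Spec R × 𝔸^N` which
dominates `Spec R` (this is no condition if `R = k`) is a variety over `k` which has a resolution
of singularities. -/
theorem result (p : ℕ) [Fact p.Prime] (k R E : Type u) [Field k] [PerfectField k] [CharP k p]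
    [CommRing R] [IsDomain R] [Algebra k R] [Algebra.FiniteType k R] [Field E] [Algebra k E]
    [Algebra R E] [IsScalarTower k R E] [IsFractionRing R E]
    (hE : Function.Surjective (algebraMap k E) ∨ (Algebra.trdeg k E = 2 ∧ HasModel k E) ∨
      HasLogModels k E)
    {n N : ℕ} (M : Matrix (Fin n) (Fin n) R) (u v : Fin N → Fin n → R) (m : Fin N → ℕ)
    (hm : ∀ e, ¬ p ∣ m e) (h0 : (pencil M u v m).det ≠ 0)
    (P : Ideal (MvPolynomial (Fin N) R)) (hP : P ∈ (Ideal.span {(pencil M u v m).det}).minimalPrimes)
    (hPR : P.comap (C : R →+* MvPolynomial (Fin N) R) = ⊥) :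
    IsResolvableVariety (X := Spec (CommRingCat.of (MvPolynomial (Fin N) R ⧸ P)))
      (Spec.map (CommRingCat.ofHom (algebraMap k (MvPolynomial (Fin N) R ⧸ P)))) := by
  have hE' : (Algebra.trdeg k E = 2 ∧ HasModel k E) ∨ HasLogModels k E := by
    rcases hE with h | h | h
    · exact Or.inr (Pool.Agent.U186.RO.hasLogModels_of_surjective k E h)
    · exact Or.inl h
    · exact Or.inr h
  exact Pool.Agent.U186.RO.hyp_res p k R E hE' M u v m hm h0 P hP hPR

end Pool.Agent.Results.MP_19ffc6_ag.RankOneDeterminants
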