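import Pool.Agent.U197.GQ.R2

/-!
MP_19ffc6_ag: resolution of singularities, in all dimensions, over perfect fields of characteristic
`p > 0`, of the quotients `X / G` of smooth projective varieties `X = Proj S` by finite groups `G`,
which may be nonabelian, such that

* for every closed point `x`, the group of the elements of `G` which fix the point `x`, its residue
  field and the fibre of the sheaf `O(1)` at `x` has the order `1` or `p` (so the inertia groups of
  the action on `X` may have elements of order prime to `p`, as long as these act faithfully on the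
  fibre of `O(1)`),
* if the order is `p`, then `g - 1` is nondegenerate at `x` with respect to some coordinates and
  weights, where `g` generates the group. The coordinates, the weights and the number `l` may
  depend on the point.

The local condition is as follows. Let `O` be the local ring of the point, `y_1, ..., y_n` étale
coordinates at the point with weights `w_i ≥ 0`, and let `F_d` be the ideal generated by the
monomials of weight at least `d`. For some `l > 0`, `g - 1` maps `O` to `F_l` and `y_i` to
`F_(w_i + l)`, the fixed locus is given by the coordinates of positive weight (set-theoretically),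
and the leading form of `g - 1`, which is homogeneous of degree `l` on the graded ring of the
filtration, has no zeros outside the zero section (the forms generate an ideal which contains a
power of each coordinate of positive weight).

For isolated `k`-rational fixed points the condition is about the parameters only: `y_i` are
parameters of positive weight, `g y_i - y_i` lies in `F_(w_i + l)`, and the leading forms of
`g y_i - y_i` have no common zero. A special case are automorphisms of diagonal type,
`g y_i = y_i + u_i y_i ^ (e_i + 1)` with units `u_i` and arbitrary `e_i ≥ 1`. If `G` is cyclic of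
order `p`, the condition on the order of the inertia groups holds automatically, and the theorem
contains products of curves with arbitrary ramification jumps, the involutions of ordinary abelian
varieties in characteristic two, projective spaces with linear actions, and their products (file
`WeightedQuotients`, which is replaced by this file).

The proof. Let `S` be the homogeneous coordinate ring, and `V` the subring of the elements with
degrees divisible by `p`. The group acts on the cone of `V` without the origin, and its inertia
groups have the order `1` or `p`. An element `g` of order `p` fixes the norm of a linear form,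
which is a generator of the sheaf `O(p)` near the point if the linear form does not vanish there;
so local coordinates at a closed point and this generator are étale coordinates on the cone of `V`
near the line over `x`, and they give an invariant homogeneous regular weighted centre with
nondegenerate leading form (`niceC_V`). By the uniqueness of such centres (theorem `le_ordI` in
`Pool.Agent.U197.SF.D2`) the local centres of each element `g` of order `p` glue to a filtration of
the ring of functions on the invariant charts of the cone, and the gluing is again a regular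
weighted centre (`GF_rwc`, `GF_lead`, `GF_hom`). The elements of order `p` of the group permute
their centres, and the intersection of all these filtrations is a regular weighted centre which is
stable under `G` (`SigFam.rwc`, `SigFam.loc`). The ring of invariants of its extended Rees algebra,
with the grading of the cone, is smooth after the tame part is taken away (`mb_of_centre`), and its
multigraded quotient is resolved by the toroidal part of the library (helpers 920, 519 and 98).
-/

set_option autoImplicit false

open AlgebraicGeometry CategoryTheory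

namespace Pool.Agent.Results.MP_19ffc6_ag.WildInertiaQuotients

section proj

variable {k S : Type} [Field k] [CommRing S] [Algebra k S]

/-- The structure morphism of `Proj` over `k`. -/
noncomputable def projStr (𝒜 : ℕ → Submodule k S) [GradedAlgebra 𝒜] :
    Proj 𝒜 ⟶ Spec (CommRingCat.of k) :=
  Proj.toSpecZero 𝒜 ≫ Spec.map (CommRingCat.ofHom (algebraMap k (𝒜 0)))

/-- The homogeneous elements of degree `d` of the subalgebra `C` of the graded algebra `S`. -/
def gradedPiece (𝒜 : ℕ → Submodule k S) (C : Subalgebra k S) (d : ℕ) : Submodule k C :=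
  (𝒜 d).comap C.val.toLinearMap

/-- The subalgebra `C` is graded by the homogeneous pieces, `Proj C` is an integral scheme, proper
over `k`, and it has a resolution of singularities: there are an integral scheme `Y`, smooth over
`k`, and a proper morphism from `Y` to `Proj C` which is an isomorphism over a dense open
subset. -/
def ProjIsResolvable (𝒜 : ℕ → Submodule k S) (C : Subalgebra k S) : Prop :=
  ∃ _ : GradedAlgebra (gradedPiece 𝒜 C),
    AlgebraicGeometry.IsIntegral (Proj (gradedPiece 𝒜 C)) ∧
    AlgebraicGeometry.IsProper (projStr (gradedPiece 𝒜 C)) ∧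
    ∃ (Y : Scheme.{0}) (π : Y ⟶ Proj (gradedPiece 𝒜 C)),
      AlgebraicGeometry.IsIntegral Y ∧ AlgebraicGeometry.IsProper π ∧
      AlgebraicGeometry.Smooth (π ≫ projStr (gradedPiece 𝒜 C)) ∧
      ∃ U : (Proj (gradedPiece 𝒜 C)).Opens, Dense (U : Set (Proj (gradedPiece 𝒜 C))) ∧
        IsIso (π ∣_ U)

variable {G : Type} [Group G]

/-- The elements which are fixed by the group. -/
def invariants (ρ : G →* (S ≃ₐ[k] S)) : Subalgebra k S where
  carrier := {s | ∀ g, ρ g s = s}
  mul_mem' := fun ha hb g => by rw [map_mul, ha g, hb g]
  add_mem' := fun ha hb g => by rw [map_add, ha g, hb g]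
  algebraMap_mem' := fun c g => (ρ g).commutes c

/-- The elements of the group which act trivially modulo the homogeneous ideal of the point `x`:
they fix the point, its residue field, and the fibre of the sheaf `O(1)` at the point. -/
def inertia (𝒜 : ℕ → Submodule k S) [GradedAlgebra 𝒜] (ρ : G →* (S ≃ₐ[k] S))
    (x : ProjectiveSpectrum 𝒜) : Subgroup G where
  carrier := {g | ∀ s, ρ g s - s ∈ x.asHomogeneousIdeal}
  mul_mem' := (Pool.Agent.U197.GQ.InS ρ x.asHomogeneousIdeal.toIdeal).mul_mem'
  one_mem' := (Pool.Agent.U197.GQ.InS ρ x.asHomogeneousIdeal.toIdeal).one_mem'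
  inv_mem' := (Pool.Agent.U197.GQ.InS ρ x.asHomogeneousIdeal.toIdeal).inv_mem'

variable [IsDomain S]

/-- The fraction `s / 1`. -/
noncomputable abbrev fr (s : S) : FractionRing S := algebraMap S (FractionRing S) s

/-- The local ring of `Proj S` at the point `x`, inside the field of fractions of `S`: the fractions
`s / t` with `s` and `t` homogeneous of the same degree, where `t` does not vanish at `x`. -/
noncomputable def localRing (𝒜 : ℕ → Submodule k S) [GradedAlgebra 𝒜]
    (x : ProjectiveSpectrum 𝒜) : Subalgebra k (FractionRing S) where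
  carrier := {y | ∃ n : ℕ, ∃ s ∈ 𝒜 n, ∃ t ∈ 𝒜 n, t ∉ x.asHomogeneousIdeal ∧ y = fr s / fr t}
  mul_mem' := fun ha hb => (Pool.Agent.U197.SF.lrx 𝒜 x).mul_mem' ha hb
  add_mem' := fun ha hb => (Pool.Agent.U197.SF.lrx 𝒜 x).add_mem' ha hb
  algebraMap_mem' := (Pool.Agent.U197.SF.lrx 𝒜 x).algebraMap_mem'

/-- The extension of an automorphism to the field of fractions. -/
noncomputable def extend (σ : S ≃ₐ[k] S) : FractionRing S ≃ₐ[k] FractionRing S :=
  IsFractionRing.fieldEquivOfAlgEquiv k (FractionRing S) (FractionRing S) σ

end proj

section weights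

/-- The ideal generated by the monomials of weight at least `d`. -/
def weightIdeal {O : Type} [CommRing O] {n : ℕ} (y : Fin n → O) (w : Fin n → ℕ) (d : ℕ) : Ideal O :=
  Ideal.span {c | ∃ α : Fin n → ℕ, d ≤ ∑ i, α i * w i ∧ c = ∏ i, y i ^ α i}

variable {k K : Type} [Field k] [Field K] [Algebra k K]

/-- The ideal of `O` which is generated by the values in `O` of the map `δ` on `O`; for
`δ = σ - 1` this is the ideal of the scheme of fixed points. -/
def zeroIdeal (O : Subalgebra k K) (δ : K → K) : Ideal O :=
  Ideal.span {c | ∃ a : O, (c : K) = δ a}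

/-- The map `δ` is nondegenerate with respect to the étale coordinates `y i` of `O`, the weights
`w i` and the number `l`. -/
structure Nondegenerate (O : Subalgebra k K) (δ : K → K) {n : ℕ} (y : Fin n → O) (w : Fin n → ℕ)
    (l : ℕ) : Prop where
  /-- The number `l` is positive. -/
  pos : 0 < l
  /-- The differentials of the coordinates are a basis of the module of differentials. -/
  coordinates : ∃ b : Module.Basis (Fin n) O (Ω[O⁄k]), ∀ i, b i = KaehlerDifferential.D k O (y i)
  /-- All values of `δ` have the order at least `l`. -/
  order : ∀ a c : O, (c : K) = δ a → c ∈ weightIdeal y w l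
  /-- The map `δ` raises the order of the coordinates by `l`. -/
  order_coordinate : ∀ i, ∀ c : O, (c : K) = δ (y i) → c ∈ weightIdeal y w (w i + l)
  /-- The coordinates of positive weight vanish at the zeros of `δ`. -/
  zeros : ∀ i, 0 < w i → y i ∈ (zeroIdeal O δ).radical
  /-- The leading form of `δ` has no zeros outside the zero section: a power of every coordinate of
  positive weight is a combination of leading forms of values of `δ`, up to terms of higher
  weight. -/
  leading : ∀ i, 0 < w i → ∃ N : ℕ, y i ^ N ∈ weightIdeal y w (N * w i + 1) ⊔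
    Ideal.span {c | ∃ e, ∃ a ∈ weightIdeal y w e, ∃ b ∈ weightIdeal y w (N * w i - (e + l)),
      ∃ z : O, (z : K) = δ a ∧ c = b * z}

/-- The local ring `O` has the residue field `k`, and the elements `y i` are parameters of `O`: they
generate the maximal ideal `m` and they are linearly independent modulo the square of `m`. -/
structure Parameters (O : Subalgebra k K) {n : ℕ} (y : Fin n → O) : Prop where
  /-- The ring is local. -/
  isLocalRing : IsLocalRing O
  /-- The residue field is `k`. -/
  rational : ∀ a : O, ∃ c : k, a - algebraMap k O c ∈ IsLocalRing.maximalIdeal O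
  /-- The parameters generate the maximal ideal. -/
  generate : Ideal.span (Set.range y) = IsLocalRing.maximalIdeal O
  /-- The parameters are independent. -/
  independent : ∀ c : Fin n → k, ∑ i, c i • y i ∈ IsLocalRing.maximalIdeal O ^ 2 → c = 0

/-- The isolated zero of `δ` at a rational point with the parameters `y i` is nondegenerate with
respect to the weights `w i` and the number `l`. -/
structure IsolatedNondegenerate (O : Subalgebra k K) (δ : K → K) {n : ℕ} (y : Fin n → O)
    (w : Fin n → ℕ) (l : ℕ) : Prop where
  /-- The number `l` is positive. -/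
  pos : 0 < l
  /-- The weights are positive. -/
  weight_pos : ∀ i, 0 < w i
  /-- The elements `y i` are parameters at a rational point. -/
  parameters : Parameters O y
  /-- The order of `δ (y i)` is at least `w i + l`. -/
  order : ∀ i, ∀ c : O, (c : K) = δ (y i) → c ∈ weightIdeal y w (w i + l)
  /-- The leading forms of the elements `δ (y i)` have no common zeros. -/
  leading : ∀ i, ∃ N : ℕ, y i ^ N ∈ weightIdeal y w (N * w i + 1) ⊔
    Ideal.span {c | ∃ j, ∃ b ∈ weightIdeal y w (N * w i - (w j + l)),
      ∃ z : O, (z : K) = δ (y j) ∧ c = b * z}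

end weights

section conversion

open Pool.Agent.U197.SF

variable {k K : Type} [Field k] [Field K] [Algebra k K] {O : Subalgebra k K} {δ : K → K}
  {n : ℕ} {y : Fin n → O} {w : Fin n → ℕ} {l : ℕ}

lemma ndk_of_nondegenerate (hδ : ∀ a ∈ O, δ a ∈ O) (h : Nondegenerate O δ y w l) :
    NDk (fun i => (y i : K)) w δ l O := by
  refine ndk_of_ring hδ y w (fun a => h.order a _ rfl) (fun i => h.order_coordinate i _ rfl)
    h.zeros (fun i hi => ?_)
  obtain ⟨N, hN⟩ := h.leading i hi
  refine ⟨N, SetLike.le_def.1 (sup_le le_sup_left (le_trans (Ideal.span_mono ?_) le_sup_right)) hN⟩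
  rintro c ⟨e, a, ha, b, hb, z, hz, rfl⟩
  refine ⟨e, a, ha, b, hb, ?_⟩
  congr 1
  exact Subtype.ext hz

lemma ndk_of_isolated {τ : K ≃ₐ[k] K} (hτO : ∀ x ∈ O, τ x ∈ O) [IsNoetherianRing O]
    (h : IsolatedNondegenerate O (fun a => τ a - a) y w l) :
    NDk (fun i => (y i : K)) w (fun a => τ a - a) l O := by
  have _ := h.parameters.isLocalRing
  refine ndk_iso hτO y w h.pos h.weight_pos h.parameters.rational h.parameters.generate
    (fun i => h.order i _ rfl) (fun i => ?_)
  obtain ⟨N, hN⟩ := h.leading i
  refine ⟨N, SetLike.le_def.1 (sup_le le_sup_left (le_trans (Ideal.span_mono ?_) le_sup_right)) hN⟩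
  rintro c ⟨j, b, hb, z, hz, rfl⟩
  refine ⟨j, b, hb, ?_⟩
  congr 1
  exact Subtype.ext hz

lemma pow_mem_weightIdeal {A : Type} [CommRing A] {n : ℕ} (y : Fin n → A) (w : Fin n → ℕ)
    (i : Fin n) (e : ℕ) : y i ^ e ∈ weightIdeal y w (e * w i) := by
  induction e with
  | zero =>
    rw [zero_mul]
    change _ ∈ monoF y w 0
    rw [(isFilt_monoF y w).zero]
    trivial
  | succ e ih =>
    rw [pow_succ, Nat.succ_mul]
    exact (isFilt_monoF y w).mul _ _ (Ideal.mul_mem_mul ih (coord_mem y w i))

/-- Automorphisms of diagonal type are nondegenerate. -/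
lemma isolated_of_diagonal {τ : K ≃ₐ[k] K} (hy : Parameters O y)
    (h : ∀ i, ∃ (e : ℕ) (u : O), 0 < e ∧ IsUnit u ∧ τ (y i) = y i + u * y i ^ (e + 1)) :
    ∃ (w : Fin n → ℕ) (l : ℕ), IsolatedNondegenerate O (fun a => τ a - a) y w l := by
  classical
  choose e u he hu hτ using h
  let L : ℕ := ∏ i, e i
  have hL : 0 < L := Finset.prod_pos fun i _ => he i
  have hdvd : ∀ i, e i ∣ L := fun i => Finset.dvd_prod_of_mem e (Finset.mem_univ i)
  have hval : ∀ i, (e i + 1) * (L / e i) = L / e i + L := by
    intro i
    rw [add_mul, one_mul, Nat.mul_div_cancel' (hdvd i), add_comm]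
  have hd : ∀ i (c : O), (c : K) = τ (y i) - y i → c = u i * y i ^ (e i + 1) := by
    intro i c hc
    apply Subtype.ext
    rw [hc, hτ]
    change _ = (u i : K) * (y i : K) ^ (e i + 1)
    ring
  refine ⟨fun i => L / e i, L, hL, fun i => Nat.div_pos (Nat.le_of_dvd hL (hdvd i)) (he i), hy,
    fun i c hc => ?_, fun i => ⟨e i + 1, Ideal.mem_sup_right (Ideal.subset_span ?_)⟩⟩
  · rw [hd i c hc]
    refine Ideal.mul_mem_left _ _ ?_
    have := pow_mem_weightIdeal y (fun i => L / e i) i (e i + 1)
    rwa [hval] at this
  · obtain ⟨v, hv⟩ := (hu i).exists_right_inv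
    refine ⟨i, v, ?_, u i * y i ^ (e i + 1), ?_, ?_⟩
    · rw [hval, Nat.sub_self]
      change _ ∈ monoF y _ 0
      rw [(isFilt_monoF y _).zero]
      trivial
    · rw [hτ]
      change (u i : K) * (y i : K) ^ (e i + 1) = _
      ring
    · rw [← mul_assoc, mul_comm v, hv, one_mul]

end conversion

/-- Let `k` be a perfect field of characteristic `p`, and let `X = Proj S` be a smooth projective
variety over `k`, where `S` is a graded domain generated over `k` by its finite dimensional piece
of degree one, which is not zero. Let `G` be a finite group which acts on `S` by graded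
automorphisms, and faithfully on `X`, such that for every closed point `x` of `X` the group
`inertia 𝒜 ρ x` has the order `1` or `p`.

1. If for every closed point `x` and every element `g` of order `p` of `inertia 𝒜 ρ x`, `g - 1` is
nondegenerate at `x`, or has a nondegenerate isolated zero at `x`, with respect to some coordinates
`y`, weights `w` and a number `l`, then the quotient of `X` by `G`, which is `Proj` of the ring of
invariants, is a proper variety and has a resolution of singularities.

2. In particular this holds if for every such `x` and `g`, the point `x` is rational with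
parameters `y i` such that `g (y i) = y i + u i * y i ^ (e i + 1)`, where the `u i` are units and
`e i ≥ 1`. -/
theorem result (p : ℕ) [Fact p.Prime] (k : Type) [Field k] [PerfectField k] [CharP k p]
    (S : Type) [CommRing S] [IsDomain S] [Algebra k S] (𝒜 : ℕ → Submodule k S) [GradedAlgebra 𝒜]
    (hfin : Module.Finite k (𝒜 1)) (hgen : Algebra.adjoin k (𝒜 1 : Set S) = ⊤)
    (hne : ∃ s ∈ 𝒜 1, s ≠ 0) (hX : AlgebraicGeometry.Smooth (projStr 𝒜))
    (G : Type) [Group G] [Finite G] (ρ : G →* (S ≃ₐ[k] S))
    (hρ : ∀ g n, ∀ s ∈ 𝒜 n, ρ g s ∈ 𝒜 n)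
    (hfaith : ∀ g, (∀ n, ∀ s ∈ 𝒜 n, ∀ t ∈ 𝒜 n, ρ g s * t = s * ρ g t) → g = 1)
    (hin : ∀ x : ProjectiveSpectrum 𝒜, IsClosed ({x} : Set (ProjectiveSpectrum 𝒜)) →
      Nat.card (inertia 𝒜 ρ x) = 1 ∨ Nat.card (inertia 𝒜 ρ x) = p) :
    ((∀ x : ProjectiveSpectrum 𝒜, IsClosed ({x} : Set (ProjectiveSpectrum 𝒜)) →
        ∀ g ∈ inertia 𝒜 ρ x, g ≠ 1 → g ^ p = 1 →
          ∃ (n : ℕ) (y : Fin n → localRing 𝒜 x) (w : Fin n → ℕ) (l : ℕ),
            Nondegenerate (localRing 𝒜 x) (fun a => extend (ρ g) a - a) y w l ∨
            IsolatedNondegenerate (localRing 𝒜 x) (fun a => extend (ρ g) a - a) y w l) →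
      ProjIsResolvable 𝒜 (invariants ρ)) ∧
    ((∀ x : ProjectiveSpectrum 𝒜, IsClosed ({x} : Set (ProjectiveSpectrum 𝒜)) →
        ∀ g ∈ inertia 𝒜 ρ x, g ≠ 1 → g ^ p = 1 →
          ∃ (n : ℕ) (y : Fin n → localRing 𝒜 x), Parameters (localRing 𝒜 x) y ∧
            ∀ i, ∃ (e : ℕ) (u : localRing 𝒜 x), 0 < e ∧ IsUnit u ∧
              extend (ρ g) (y i) = y i + u * y i ^ (e + 1)) →
      ProjIsResolvable 𝒜 (invariants ρ)) := by
  have _ := hfin
  obtain ⟨m, b, hb, hb0, hbg⟩ := Pool.Agent.U197.SF.exists_basis 𝒜 hgen hne
  have main : (∀ x : ProjectiveSpectrum 𝒜, IsClosed ({x} : Set (ProjectiveSpectrum 𝒜)) →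
        ∀ g ∈ inertia 𝒜 ρ x, g ≠ 1 → g ^ p = 1 →
          ∃ (n : ℕ) (y : Fin n → localRing 𝒜 x) (w : Fin n → ℕ) (l : ℕ),
            Nondegenerate (localRing 𝒜 x) (fun a => extend (ρ g) a - a) y w l ∨
            IsolatedNondegenerate (localRing 𝒜 x) (fun a => extend (ρ g) a - a) y w l) →
      ProjIsResolvable 𝒜 (invariants ρ) := by
    intro h
    obtain ⟨g, hg⟩ := Pool.Agent.U197.GQ.rsvQ p ρ hρ b hb hb0 hbg hX hfaith
      (fun x hx => hin x hx) (fun σ hσ1 hσp x hx hσx => by
        obtain ⟨n, y, w, l, h1⟩ := h x hx σ hσx hσ1 hσp
        have hfix := Pool.Agent.U197.GQ.fixed_of_InS ρ hσx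
        have hσit : ∀ s, (ρ σ)^[p] s = s := by
          intro s
          rw [Pool.Agent.U197.GQ.iter_rho, hσp, map_one]
          rfl
        have hτO : ∀ a ∈ localRing 𝒜 x, extend (ρ σ) a ∈ localRing 𝒜 x :=
          Pool.Agent.U197.SF.tau_mem_lrx 𝒜 (ρ σ) (hρ σ) hfix
        have hfam := Pool.Agent.U197.SF.chartFam 𝒜 b hb hb0 hbg (p := p) (ρ σ) (hρ σ) hσit hX hfix
        obtain ⟨hs1, hs2, hs3⟩ := hfam.smooth
        rcases h1 with h1 | h1
        · exact ⟨n, fun i => (y i : FractionRing S), w, l, fun i => (y i).2, h1.pos,
            h1.coordinates, ndk_of_nondegenerate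
              (fun a ha => Subalgebra.sub_mem _ (hτO a ha) ha) h1⟩
        · have hs1' : Algebra.FormallySmooth k (localRing 𝒜 x) := hs1
          have hs2' : Algebra.EssFiniteType k (localRing 𝒜 x) := hs2
          have hs3' : IsNoetherianRing (localRing 𝒜 x) := hs3
          have hb1 := @Pool.Agent.U197.SF.basis_of_params k (localRing 𝒜 x) _ _
            h1.parameters.isLocalRing _ hs1' hs2' n y h1.parameters.rational
            h1.parameters.generate h1.parameters.independent
          exact ⟨n, fun i => (y i : FractionRing S), w, l, fun i => (y i).2, h1.pos, hb1,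
            ndk_of_isolated hτO h1⟩)
      (invariants ρ) (fun s => Iff.rfl)
    exact ⟨g, hg⟩
  refine ⟨main, fun h => main fun x hx g hgx hg1 hgp => ?_⟩
  obtain ⟨n, y, hy, h1⟩ := h x hx g hgx hg1 hgp
  obtain ⟨w, l, h2⟩ := isolated_of_diagonal hy h1
  exact ⟨n, y, w, l, Or.inr h2⟩

end Pool.Agent.Results.MP_19ffc6_ag.WildInertiaQuotients
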